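import Pool.Agent.LSG.StmtsF
import Pool.Agent.Helper18_LSG.NPK

/-!
# Squad LSN (MP_005a41_gt), row SDN: a Sidon sequence in a metrizable group which is not separable
-/

set_option autoImplicit false

open MeasureTheory Set Topology
open scoped BigOperators Pointwise

namespace Pool.Agent.LSN.H27

open Pool.Agent.LSG

/-- A symmetric neighbourhood with fourth power in `U`. -/
lemma sym4 {H : Type} [Group H] [TopologicalSpace H] [IsTopologicalGroup H] (U : Set H)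
    (hU : U ∈ nhds (1 : H)) : ∃ V ∈ nhds (1 : H), (∀ x ∈ V, x⁻¹ ∈ V) ∧ (1 : H) ∈ V ∧
      ∀ v w s t : H, v ∈ V → w ∈ V → s ∈ V → t ∈ V → v * w * s * t ∈ U := by
  obtain ⟨V, hV, h⟩ := exists_nhds_one_split4 hU
  have hV2 : V ∩ V⁻¹ ∈ nhds (1 : H) := Filter.inter_mem hV (inv_mem_nhds_one H hV)
  refine ⟨V ∩ V⁻¹, hV2, fun x hx => ⟨hx.2, ?_⟩, mem_of_mem_nhds hV2,
    fun v w s t hv hw hs ht => h hv.1 hw.1 hs.1 ht.1⟩
  rw [Set.mem_inv, inv_inv]
  exact hx.1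

/-- No countable set of translates of some neighbourhood covers a group which is not separable. -/
lemma sdn_unc {H : Type} [Group H] [TopologicalSpace H] [IsTopologicalGroup H]
    [TopologicalSpace.MetrizableSpace H] (hns : ¬ TopologicalSpace.SeparableSpace H) :
    ∃ V ∈ nhds (1 : H), ∀ F : Set H, F.Countable → (⋃ g ∈ F, g • V) ≠ Set.univ := by
  by_contra hc
  push Not at hc
  obtain ⟨B, hB⟩ := (nhds (1 : H)).exists_antitone_basis
  have hBn : ∀ n, (B n)⁻¹ ∈ nhds (1 : H) := fun n => inv_mem_nhds_one H (hB.mem n)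
  choose F hF hFu using fun n => hc ((B n)⁻¹) (hBn n)
  refine hns ⟨⟨⋃ n, F n, Set.countable_iUnion hF, ?_⟩⟩
  intro h
  rw [mem_closure_iff_nhds]
  intro O hO
  have h1 : (fun x : H => h * x) ⁻¹' O ∈ nhds (1 : H) := by
    have hct : ContinuousAt (fun x : H => h * x) 1 := (continuous_const_mul h).continuousAt
    refine hct ?_
    change O ∈ nhds (h * 1)
    rw [mul_one]
    exact hO
  obtain ⟨n, hn⟩ := hB.mem_iff.mp h1
  have h2 : h ∈ ⋃ g ∈ F n, g • (B n)⁻¹ := by rw [hFu n]; exact Set.mem_univ _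
  rw [Set.mem_iUnion₂] at h2
  obtain ⟨f, hf, hfh⟩ := h2
  rw [Set.mem_smul_set_iff_inv_smul_mem, smul_eq_mul, Set.mem_inv, mul_inv_rev, inv_inv] at hfh
  refine ⟨f, ?_, Set.mem_iUnion.mpr ⟨n, hf⟩⟩
  have h3 := hn hfh
  have h4 : h * (h⁻¹ * f) ∈ O := h3
  rwa [mul_inv_cancel_left] at h4

/-- `x ∈ V V z V V c` -/
def InV {H : Type} [Group H] (V : Set H) (z c x : H) : Prop :=
  ∃ v1 ∈ V, ∃ v2 ∈ V, ∃ w1 ∈ V, ∃ w2 ∈ V, x = v1 * v2 * z * (w1 * w2) * c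

/-- The sequence, chosen by recursion in an infinite set. -/
lemma sdn_rec {H : Type} [Group H] (V T : Set H) (hT : T.Infinite)
    (h : ∀ z : H, ∀ c ∈ T, {x | x ∈ T ∧ InV V z c x}.Subsingleton) :
    ∃ d : ℕ → H, (∀ n, d n ∈ T) ∧
      ∀ n r r' s, r < n → r' < n → s < n → ¬ InV V (d r' * (d r)⁻¹) (d s) (d n) := by
  classical
  have hpick : ∀ A : Finset H, ∃ x ∈ T, ∀ a ∈ A, ∀ b ∈ A, ∀ c ∈ A, c ∈ T →
      ¬ InV V (a * b⁻¹) c x := by
    intro A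
    have hfin : (⋃ p ∈ ((A ×ˢ A) ×ˢ A : Finset ((H × H) × H)),
        {x | x ∈ T ∧ p.2 ∈ T ∧ InV V (p.1.1 * (p.1.2)⁻¹) p.2 x}).Finite := by
      refine Set.Finite.biUnion (Finset.finite_toSet _) (fun p _ => ?_)
      refine Set.Subsingleton.finite ?_
      intro x hx y hy
      exact h _ p.2 hx.2.1 ⟨hx.1, hx.2.2⟩ ⟨hy.1, hy.2.2⟩
    obtain ⟨x, hx⟩ := (hT.sdiff hfin).nonempty
    refine ⟨x, hx.1, fun a ha b hb c hc hcT hin => hx.2 ?_⟩
    rw [Set.mem_iUnion₂]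
    exact ⟨((a, b), c), Finset.mem_product.2 ⟨Finset.mem_product.2 ⟨ha, hb⟩, hc⟩, hx.1, hcT, hin⟩
  choose pick hpT hpk using hpick
  let S : ℕ → Finset H := fun n => Nat.rec ∅ (fun _ A => insert (pick A) A) n
  let d : ℕ → H := fun n => pick (S n)
  have hS : ∀ n, S (n + 1) = insert (d n) (S n) := fun n => rfl
  have hmem : ∀ n m, m < n → d m ∈ S n := by
    intro n
    induction n with
    | zero => intro m hm; exact absurd hm (Nat.not_lt_zero _)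
    | succ n ih =>
      intro m hm
      rw [hS]
      rcases Nat.lt_succ_iff_lt_or_eq.1 hm with h1 | h1
      · exact Finset.mem_insert_of_mem (ih m h1)
      · subst h1; exact Finset.mem_insert_self _ _
  refine ⟨d, fun n => hpT _, fun n r r' s hr hr' hs => ?_⟩
  exact hpk (S n) _ (hmem n r' hr') _ (hmem n r hr) _ (hmem n s hs) (hpT _)

theorem sdn : SdnStmt := by
  classical
  intro H _ _ _ _ hns
  obtain ⟨V₀, hV₀, hunc⟩ := sdn_unc hns
  obtain ⟨S, W, hW, -, hdis, -, hSu⟩ := H18.npk H V₀ hV₀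
  have hsep : ∀ x ∈ S, ∀ y ∈ S, x⁻¹ * y ∈ W → x = y := by
    intro x hx y hy hxy
    by_contra hne
    have h1 : y ∈ x • W := by
      rw [Set.mem_smul_set_iff_inv_smul_mem]
      exact hxy
    have h2 : y ∈ y • W := by
      rw [Set.mem_smul_set_iff_inv_smul_mem, smul_eq_mul, inv_mul_cancel]
      exact mem_of_mem_nhds hW
    exact Set.disjoint_left.mp (hdis x hx y hy hne) h1 h2
  have hSnc : ¬ S.Countable := fun hc => hunc S hc hSu
  obtain ⟨V', hV', hV's, hV'1, hV'4⟩ := sym4 W hW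
  obtain ⟨B, hB⟩ := (nhds (1 : H)).exists_antitone_basis
  have hcon : ∀ x : H, ∃ n, ∀ y ∈ B n, x⁻¹ * y * x ∈ V' := by
    intro x
    have hc : Continuous (fun y : H => x⁻¹ * y * x) :=
      (continuous_const_mul x⁻¹).mul continuous_const
    have h1 : (fun y : H => x⁻¹ * y * x) ⁻¹' V' ∈ nhds (1 : H) := by
      refine hc.continuousAt ?_
      rw [mul_one, inv_mul_cancel]
      exact hV'
    obtain ⟨n, hn⟩ := hB.mem_iff.mp h1
    exact ⟨n, fun y hy => hn hy⟩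
  obtain ⟨n, hinf⟩ : ∃ n, {x | x ∈ S ∧ ∀ y ∈ B n, x⁻¹ * y * x ∈ V'}.Infinite := by
    by_contra hc
    push Not at hc
    refine hSnc ?_
    have h1 : S = ⋃ n, {x | x ∈ S ∧ ∀ y ∈ B n, x⁻¹ * y * x ∈ V'} := by
      ext x
      constructor
      · intro hx
        obtain ⟨n, hn⟩ := hcon x
        exact Set.mem_iUnion.mpr ⟨n, hx, hn⟩
      · intro hx
        obtain ⟨n, hn⟩ := Set.mem_iUnion.mp hx
        exact hn.1
    rw [h1]
    exact Set.countable_iUnion fun n => (hc n).countable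
  obtain ⟨V, hV, hVs, hV1, hV4⟩ := sym4 (B n) (hB.mem n)
  have hV2 : ∀ v w : H, v ∈ V → w ∈ V → v * w ∈ B n := by
    intro v w hv hw
    have h1 := hV4 v w 1 1 hv hw hV1 hV1
    rwa [mul_one, mul_one] at h1
  have hVB : ∀ v ∈ V, v ∈ B n := by
    intro v hv
    have h1 := hV2 v 1 hv hV1
    rwa [mul_one] at h1
  have hV'2 : ∀ v w : H, v ∈ V' → w ∈ V' → v * w ∈ W := by
    intro v w hv hw
    have h1 := hV'4 v w 1 1 hv hw hV'1 hV'1
    rwa [mul_one, mul_one] at h1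
  let T : Set H := {x | x ∈ S ∧ ∀ y ∈ B n, x⁻¹ * y * x ∈ V'}
  have hone : ∀ z : H, ∀ c ∈ T, {x | x ∈ T ∧ InV V z c x}.Subsingleton := by
    rintro z c hc x ⟨hx, v1, hv1, v2, hv2, w1, hw1, w2, hw2, hxe⟩ y
      ⟨hy, u1, hu1, u2, hu2, t1, ht1, t2, ht2, hye⟩
    refine hsep x hx.1 y hy.1 ?_
    have h1 : x⁻¹ * (u1 * u2 * v2⁻¹ * v1⁻¹) * x ∈ V' :=
      hx.2 _ (hV4 u1 u2 v2⁻¹ v1⁻¹ hu1 hu2 (hVs _ hv2) (hVs _ hv1))
    have h2 : c⁻¹ * (w2⁻¹ * w1⁻¹ * t1 * t2) * c ∈ V' :=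
      hc.2 _ (hV4 w2⁻¹ w1⁻¹ t1 t2 (hVs _ hw2) (hVs _ hw1) ht1 ht2)
    have h3 := hV'2 _ _ h1 h2
    have h4 : x⁻¹ * (u1 * u2 * v2⁻¹ * v1⁻¹) * x * (c⁻¹ * (w2⁻¹ * w1⁻¹ * t1 * t2) * c) =
        x⁻¹ * y := by
      have h5 : (u1 * u2 * v2⁻¹ * v1⁻¹) * x * (c⁻¹ * (w2⁻¹ * w1⁻¹ * t1 * t2) * c) = y := by
        rw [hxe, hye]
        group
      rw [← h5]
      group
    rw [h4] at h3
    exact h3
  obtain ⟨d, hdT, hd⟩ := sdn_rec V T hinf hone
  have hdne : ∀ r s, d r = d s → r = s := by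
    have h1 : ∀ r s, r < s → d r ≠ d s := by
      intro r s hrs he
      refine hd s r r r hrs hrs hrs ⟨1, hV1, 1, hV1, 1, hV1, 1, hV1, ?_⟩
      rw [he]
      group
    intro r s he
    rcases Nat.lt_trichotomy r s with h2 | h2 | h2
    · exact absurd he (h1 r s h2)
    · exact h2
    · exact absurd he.symm (h1 s r h2)
  have hdW : ∀ r s, (d r)⁻¹ * d s ∈ W → r = s := fun r s h =>
    hdne r s (hsep _ (hdT r).1 _ (hdT s).1 h)
  have key : ∀ (g : H) (s s' r r' : ℕ), s < s' → r < r' →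
      (∃ v ∈ V, ∃ w ∈ V, g * (w * d s') = v * d s) →
      (∃ a ∈ V, ∃ b ∈ V, g * (b * d r') = a * d r) → s = r ∧ s' = r' := by
    have key1 : ∀ (g : H) (s s' r r' : ℕ), s < s' → r < r' → r' < s' →
        (∃ v ∈ V, ∃ w ∈ V, g * (w * d s') = v * d s) →
        (∃ a ∈ V, ∃ b ∈ V, g * (b * d r') = a * d r) → False := by
      rintro g s s' r r' hs hr hrs ⟨v, hv, w, hw, h1⟩ ⟨a, ha, b, hb, h2⟩
      refine hd s' r r' s (hr.trans hrs) hrs hs
        ⟨w⁻¹, hVs _ hw, b, hb, a⁻¹, hVs _ ha, v, hv, ?_⟩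
      have h3 : d s' = w⁻¹ * g⁻¹ * (v * d s) := by rw [← h1]; group
      have h4 : g⁻¹ = b * d r' * (d r)⁻¹ * a⁻¹ := by
        have h5 : g = a * d r * (b * d r')⁻¹ := by rw [← h2]; group
        rw [h5]; group
      rw [h4] at h3
      conv_lhs => rw [h3]
      group
    intro g s s' r r' hs hr h1 h2
    rcases Nat.lt_trichotomy r' s' with h3 | h3 | h3
    · exact absurd (key1 g s s' r r' hs hr h3 h1 h2) id
    · subst h3
      refine ⟨?_, rfl⟩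
      obtain ⟨v, hv, w, hw, h1⟩ := h1
      obtain ⟨a, ha, b, hb, h2⟩ := h2
      symm
      refine hdW r s ?_
      have h3 : (d r)⁻¹ * (a⁻¹ * v)⁻¹ * d r ∈ V' := by
        refine (hdT r).2 _ ?_
        rw [mul_inv_rev, inv_inv]
        exact hV2 _ _ (hVs _ hv) ha
      have h4 : (d r')⁻¹ * (b⁻¹ * w) * d r' ∈ V' :=
        (hdT r').2 _ (hV2 _ _ (hVs _ hb) hw)
      have h5 := hV'2 _ _ h3 h4
      have h6 : (d r)⁻¹ * (a⁻¹ * v)⁻¹ * d r * ((d r')⁻¹ * (b⁻¹ * w) * d r') = (d r)⁻¹ * d s := by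
        have h7 : d s = v⁻¹ * (g * (w * d r')) := by rw [h1]; group
        have h8 : g = a * d r * (b * d r')⁻¹ := by rw [← h2]; group
        rw [h7, h8]
        group
      rw [h6] at h5
      exact h5
    · exact absurd (key1 g r r' s s' hr hs h3 h2 h1) id
  refine ⟨V, hV, d, ?_, ?_⟩
  · intro h₀
    refine ⟨(fun x : H => h₀⁻¹ * x) ⁻¹' V', ?_, Set.Subsingleton.finite ?_⟩
    · have hct : ContinuousAt (fun x : H => h₀⁻¹ * x) h₀ := (continuous_const_mul h₀⁻¹).continuousAt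
      refine hct ?_
      change V' ∈ nhds (h₀⁻¹ * h₀)
      rw [inv_mul_cancel]
      exact hV'
    · rintro r ⟨h, ⟨v, hv, hr⟩, hh⟩ s ⟨h', ⟨w, hw, hs⟩, hh'⟩
      have hh2 : h₀⁻¹ * h ∈ V' := hh
      have hh2' : h₀⁻¹ * h' ∈ V' := hh'
      refine hdW r s ?_
      have h1 : (d r)⁻¹ * v * d r ∈ V' := (hdT r).2 _ (hVB v hv)
      have h2 : (d s)⁻¹ * w⁻¹ * d s ∈ V' := (hdT s).2 _ (hVB _ (hVs w hw))
      have h3 := hV'4 _ _ _ _ h1 (hV's _ hh2) hh2' h2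
      have h4 : (d r)⁻¹ * v * d r * (h₀⁻¹ * h)⁻¹ * (h₀⁻¹ * h') * ((d s)⁻¹ * w⁻¹ * d s) =
          (d r)⁻¹ * d s := by
        rw [hr, hs]
        group
      rw [h4] at h3
      exact h3
  · intro g
    have hsub : {p : ℕ × ℕ | p.1 ≠ p.2 ∧ ∃ v ∈ V, ∃ w ∈ V, g * (w * d p.2) = v * d p.1} ⊆
        {p : ℕ × ℕ | p.1 < p.2 ∧ ∃ v ∈ V, ∃ w ∈ V, g * (w * d p.2) = v * d p.1} ∪
        {p : ℕ × ℕ | p.2 < p.1 ∧ ∃ v ∈ V, ∃ w ∈ V, g⁻¹ * (w * d p.1) = v * d p.2} := by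
      rintro p ⟨hne, v, hv, w, hw, he⟩
      rcases Nat.lt_or_gt_of_ne hne with h1 | h1
      · exact Or.inl ⟨h1, v, hv, w, hw, he⟩
      · refine Or.inr ⟨h1, w, hw, v, hv, ?_⟩
        rw [← he]
        group
    refine Set.Finite.subset (Set.Finite.union ?_ ?_) hsub
    · refine Set.Subsingleton.finite ?_
      rintro p ⟨hp, hp2⟩ q ⟨hq, hq2⟩
      have h1 := key g p.1 p.2 q.1 q.2 hp hq hp2 hq2
      exact Prod.ext h1.1 h1.2
    · refine Set.Subsingleton.finite ?_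
      rintro p ⟨hp, hp2⟩ q ⟨hq, hq2⟩
      have h1 := key g⁻¹ p.2 p.1 q.2 q.1 hp hq hp2 hq2
      exact Prod.ext h1.2 h1.1

end Pool.Agent.LSN.H27
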