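import Pool.Agent.Helper18_LSG.AsmB
import Pool.Agent.Helper18_LSG.AsmE
import Pool.Agent.Helper27_LSN.SDN
import Pool.Agent.Helper18_LSN.QMN
import Pool.Agent.Helper11_LSN.PCN
import Pool.Agent.Helper21_LSN.THN
import Pool.Agent.Helper40_LSN.ABN
import Pool.Agent.Helper23_LSN.FIN

/-!
# Squad LSN (MP_005a41_gt): every metrizable group which is not precompact is l-stable
-/

set_option autoImplicit false

open MeasureTheory Set Topology
open scoped BigOperators Pointwise

namespace Pool.Agent.LSN.H27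

open Pool.Agent.LSG

theorem all_ : FinNStmt :=
  H23.fin (H40.abn Pool.Agent.LSG.H77.slo sdn
    (H11.pcn (Pool.Agent.LSG.H18.sto Pool.Agent.LSG.H97.ctk) Pool.Agent.LSG.H97.ctk H18.qmn)
    (H21.thn H18.qmn)) Pool.Agent.LSG.H37.pel Pool.Agent.LSG.H18.cex Pool.Agent.LSG.H99.cpe
    Pool.Agent.LSG.H21.bri

end Pool.Agent.LSN.H27
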